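import Pool.Agent.X73.LCJ.Grow
import Pool.Agent.X73.LCJ.Donner

set_option autoImplicit false

namespace Pool.Agent.Results.MP_e82249_co.JoinsWithCliques

open Pool.Agent.X73.LCJ

/-- `H` is enumeratively chromatic-choosable: `P_ℓ(H, m) = P(H, m)` for every `m ≥ χ(H)`. -/
def EnumerativelyChromaticChoosable {W : Type} [Fintype W] (H : SimpleGraph W) : Prop :=
  ∀ m : ℕ, H.chromaticNumber ≤ m → Pl H m = Pu H m

/-- With fewer than `p` colours there are no proper colourings of `G ∨ K_p`. -/
lemma Pu_eq_zero {V : Type} [Fintype V] (G : SimpleGraph V) {p m : ℕ} (h : m < p) :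
    Pu (J G p) m = 0 := by
  unfold Pu ncol
  rw [Finset.card_eq_zero, Finset.eq_empty_iff_forall_notMem]
  intro f hf
  rw [mem_cols] at hf
  have hinj : Function.Injective (fun i : Fin p => (⟨f (Sum.inr i),
      Finset.mem_range.1 (hf.1 (Sum.inr i))⟩ : Fin m)) := by
    intro i k hik
    by_contra hne
    exact hf.2 (Sum.inr i) (Sum.inr k) hne (congrArg Fin.val hik)
  have := Fintype.card_le_of_injective _ hinj
  rw [Fintype.card_fin, Fintype.card_fin] at this
  omega

/-- **Joins with large cliques are enumeratively chromatic-choosable.** For every finite nonempty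
graph `G` there is `p₀ ≥ 1` such that the join of `G` with `K_p` is enumeratively
chromatic-choosable for all `p ≥ p₀`. -/
theorem result : ∀ (V : Type) [Fintype V] [Nonempty V] (G : SimpleGraph V),
    ∃ p₀ : ℕ, 1 ≤ p₀ ∧ ∀ p : ℕ, p₀ ≤ p → EnumerativelyChromaticChoosable (J G p) := by
  intro V _ _ G
  obtain ⟨k0, hk0⟩ := donner (J G 0)
  choose q hq using exists_eq G
  refine ⟨1 + ∑ j ∈ Finset.range k0, q j, by omega, ?_⟩
  intro p hp m _
  rcases lt_or_ge m p with hmp | hmp
  · have h0 := Pu_eq_zero G hmp
    have h1 := Pl_le_Pu (J G p) m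
    omega
  · obtain ⟨j, rfl⟩ : ∃ j, m = p + j := ⟨m - p, by omega⟩
    rcases lt_or_ge j k0 with hj | hj
    · have hqj : q j ≤ ∑ j ∈ Finset.range k0, q j :=
        Finset.single_le_sum (f := q) (fun _ _ => Nat.zero_le _) (Finset.mem_range.2 hj)
      obtain ⟨k, rfl⟩ : ∃ k, p = q j + k := ⟨p - q j, by omega⟩
      have := eq_add G (q j) (q j + j) (hq j) k
      have e : q j + k + j = q j + j + k := by omega
      rw [e]
      exact this
    · have := eq_add G 0 j (hk0 j hj) p
      rw [zero_add, add_comm j p] at this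
      exact this

end Pool.Agent.Results.MP_e82249_co.JoinsWithCliques
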